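import Pool.Agent.H751.PC.Small

/-!
# Groups acting with finite edge stabilizers on simply connected complexes of negative curvature

A polygonal complex `X : Cx V` consists of a graph with the vertex set `V` and of faces, embedded
closed paths; `X.SC` means that it is simply connected. `FinEdges G X`: the stabilizers of the edges
are finite (the vertex stabilizers are arbitrary). `Hyp G V X`: the complex `X` is a small
cancellation complex `C(p)-T(q)` with `1/p + 1/q < 1/2`, or its corners have `G`-invariant
nonnegative angles such that each face with `n` sides has angle sum less than `(n - 2) π` and all
closed paths without backtracking in the links of the vertices have angle sum at least `2 π`.
`Cofin H X`: finitely many orbits of vertices, edges and faces. `Rel Hyp C H`: the group `H` acts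
cofinitely and with finite edge stabilizers on a simply connected complex of this kind, and the
stabilizers of the vertices belong to the class `C`; it is well known that such a group is
hyperbolic relative to finitely many groups in `C`, the infinite vertex stabilizers, and hyperbolic
if all the vertex stabilizers are finite. `DirColim D G`: the group `G` is the colimit of a directed
system of groups with the property `D`.

Let `C` be any class of groups that is closed under isomorphisms. Every group `G` which acts with
edge stabilizers that are finite and vertex stabilizers that belong to `C` on a simply connected
complex `X` with `Hyp G V X` is the colimit of a directed system of groups `H` with `Rel Hyp C H`.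
There are no finiteness conditions: the complex may have infinitely many orbits of vertices and
faces, `G` need not be finitely generated or countable, the lengths of the faces may be unbounded
and their angle sums may tend to `(n - 2) π`. In (1) this is stated for any property `P` of
complexes with a group action that is inherited under equivariant immersions.

The class of the groups that satisfy the A-theoretic Farrell–Jones conjecture (with coefficients and
finite wreath products) is closed under directed colimits and it contains the groups which are
hyperbolic relative to groups in the class. So `G` belongs to it if the vertex stabilizers do.

Outline of the proof. For a finite set `i` of edges and faces let `Y_i` be the subcomplex consisting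
of their orbits. The group `G_i` of all lifts of elements of `G` to the universal covering of the
component of the base point in `Y_i` acts cofinitely on the universal covering, its vertex and edge
stabilizers are those of `G`, and the universal covering is immersed in `X`. The small cancellation
conditions and the angle conditions pull back under immersions. As `X` is simply connected, `G` is
the directed colimit of the groups `G_i`.
-/

set_option autoImplicit false

namespace Pool.Agent.Results.MP_63c928_gt.FiniteEdgeStabilizers

open Pool.Agent.H751.PC

theorem result (C : ∀ (H : Type) [Group H], Prop)
    (hC : ∀ (H K : Type) [Group H] [Group K], Nonempty (H ≃* K) → C H → C K) :
    -- (1) properties which are inherited under equivariant immersions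
    (∀ P : ∀ (H V : Type) [Group H] [MulAction H V], Cx V → Prop, Hered P →
      ∀ (G V : Type) [Group G] [MulAction G V] [Nonempty V] (X : Cx V), X.SC → P G V X →
        Inv G X → FinEdges G X → (∀ v : V, C (MulAction.stabilizer G v)) →
        DirColim (fun H _ => Rel P C H) G) ∧
    -- (2) small cancellation complexes and negatively curved complexes
    (∀ (G V : Type) [Group G] [MulAction G V] [Nonempty V] (X : Cx V), X.SC → Hyp G V X →
        Inv G X → FinEdges G X → (∀ v : V, C (MulAction.stabilizer G v)) →
        DirColim (fun H _ => Rel Hyp C H) G) := by
  refine ⟨?_, ?_⟩
  · intro P hP G V _ _ _ X hX hPX hI hE hV
    exact rel_main hP hC X hX hPX hI hE hV
  · intro G V _ _ _ X hX hH hI hE hV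
    exact small_main hC X hX hH hI hE hV

end Pool.Agent.Results.MP_63c928_gt.FiniteEdgeStabilizers
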