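import Pool.Agent.H417.PL.Main
import Pool.Graph.R_pool_sql_team_seeded_3997aac3.Q171.KV.Fun

/-!
# Groups of piecewise linear homeomorphisms: rational injectivity of assembly in all positive degrees

`A ≠ 0` is an additive subgroup of `ℝ`, `P` is a group of positive real numbers with `P · A ⊆ A`, and
`I` is an open interval whose finite end points lie in `A`. `G(I; A, P)` is the group of Bieri and
Strebel: the piecewise linear homeomorphisms `g` of `ℝ` with support in `I`, with finitely many
breaks, all of them in `A`, with slopes in `P`, and with `g(A) = A`. We assume that `P` is free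
abelian, of finite or infinite rank, and contains a rational number different from `1`. Examples are
the group of all the rational piecewise linear homeomorphisms of `[0,1]` (`A = ℚ`, `P = ℚ_{>0}`),
Thompson's group `F` and the groups of Brown and Stein (`A = ℤ[1/(n₁⋯n_k)]`, `P = ⟨n₁, …, n_k⟩`), on
intervals `[0, l]`, on half lines and on the line. These groups are torsion free and have infinite
cohomological dimension. Most of them are not finitely generated. It is not known whether they satisfy
the Farrell-Jones conjecture.

`S` is any ring and `kvQ S n` is the functor `G ↦ ℚ ⊗ KV_{n+1}(S[G])`. Here `KV_m(B)`, `m ≥ 1`, is the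
K-theory of Karoubi and Villamayor of the ring `B`: it has the generators `[u]` for the invertible
matrices `u` over `B[X₁, …, X_n]` which are congruent to the identity modulo the ideal of the `n`-fold
loops, `n = m - 1`, and the relations `[u v] = [u] + [v]`, `[u'] = [u]` for the stabilizations `u'` of
`u`, and `[h(1)] = 0` for the invertible matrices `h` over `B[t][X₁, …, X_n]` congruent to the identity
modulo this ideal with `h(0) = 1`. There are natural maps `K_m(B) → KV_m(B)`, which are isomorphisms if
`B` is regular.

`Det (kvQ S n) G` says: for every group `T` and every family of transformations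
`α_{j,i} : H_j(-; ℚ) → ℚ ⊗ KV_{n+1}(S[- × T])`, `i ∈ I_j`, natural in the group, such that for each `j`
the `α_{j,i}`, `i ∈ I_j`, are linearly independent on the group `ℤ^j`, the sum of all the `α_{j,i}` is
injective on `G`. This applies to the composition of the rational assembly map
`⨁ H_j(G; ℚ) ⊗ K_q(S) → ℚ ⊗ K_{j+q}(S[G])` with the map to `ℚ ⊗ KV_{j+q}(S[G])`, if `S` is a regular
ring. For `S = ℤ` the source is the rational homology of `BG` with coefficients in Waldhausen's
`A(pt)`, the target of the assembly map is `ℚ ⊗ π_{j+q} A(BG) = ℚ ⊗ K_{j+q}(ℤ[G])`, and so the assembly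
map in `A`-theory is rationally injective in all positive degrees for the spaces `BG`.

We prove `Det (kvQ S n) (G(I; A, P))` for all rings `S` and all `n`.

Outline of the proof. (1) Let `G` be the group of the elements supported in a half line `(b, ∞)`. For
`a > b` in `A` and `p` in `P` let `g_{a,p}` be the map which is equal to `g` before `a` and affine with
slope `p` after `a`. The two maps `g ↦ g_{a,p}`, `p` the right and the left derivative of `g` at `a`,
differ only at the finitely many breaks of `g`; they define transfers from `H_*(G)` to `H_*(S_e)`,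
`S_e` the group of the elements which fix `e` and are affine after `e`, one for each orbit in `A`. The
sum over the breaks telescopes: a class whose transfers vanish is determined by the germs at `b`.
(2) Let `K` be the group of the elements with compact support. Telescoping transfers along the
conjugates `t^n N t^{-n} ⊂ N` show that `H_*(S_e)` is detected by the two derivatives at `e` and the
truncation `S_e → K` (this uses that `H_*(P)` is the homology of `(P-1)A ⋊ P`). (3) The two maps in
(1) have the same truncation, so that the transfer of a class has trivial image in `H_*(K)`. Hence, for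
a class in the kernel of the sum of the `α_{j,i}`, induction on the degree gives that the transfers
vanish, as transformations tensored with independent classes of `H_*(P × P)` are again independent.
(4) A rational number `s ≠ 1` in `P` acts on `H_q(A; ℚ)` as the multiplication by `s^q`, so that the
homology of `A ⋊ P` and of `(P-1)A ⋊ P` is the homology of `P`.
-/

set_option autoImplicit false

namespace Pool.Agent.Results.MP_63c928_gt.PiecewiseLinearGroups

open Pool.Agent.R615.KU Pool.Agent.Q171.KV

/-- **The group `G(I; A, P)` of Bieri and Strebel**: the group (under composition) of the order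
preserving bijections `g` of the real line which map `A` onto itself, are trivial outside of `I`, and
for which there is a finite subset `F` of `A` such that on every interval `[x, y]` which has no element
of `F` in its interior `g` is affine with a slope in `P`. -/
def BieriStrebel (A : AddSubgroup ℝ) (P : Subgroup ℝˣ) (I : Set ℝ) : Subgroup (ℝ ≃o ℝ) where
  carrier := {g | (∀ x, g x ∈ A ↔ x ∈ A) ∧ (∀ x, x ∉ I → g x = x) ∧
    ∃ F : Finset ℝ, (∀ z ∈ F, z ∈ A) ∧ ∀ x y, x < y → (∀ z ∈ F, z ≤ x ∨ y ≤ z) →
      ∃ p : P, ∀ z, x ≤ z → z ≤ y → g z = g x + ((p : ℝˣ) : ℝ) * (z - x)}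
  one_mem' := (Pool.Agent.H417.PL.BS A P I).one_mem'
  mul_mem' := (Pool.Agent.H417.PL.BS A P I).mul_mem'
  inv_mem' := (Pool.Agent.H417.PL.BS A P I).inv_mem'

/-- The open intervals whose finite end points are in `A`. -/
def IsInterval (A : AddSubgroup ℝ) (I : Set ℝ) : Prop :=
  I = Set.univ ∨ (∃ b ∈ A, I = Set.Ioi b) ∨ (∃ b ∈ A, I = Set.Iio b) ∨
    ∃ b ∈ A, ∃ c ∈ A, b < c ∧ I = Set.Ioo b c

theorem result (S : Type) [Ring S] (n : ℕ) (A : AddSubgroup ℝ) (hA : A ≠ ⊥) (P : Subgroup ℝˣ)
    [Module.Free ℤ (Additive P)] (hpos : ∀ p ∈ P, 0 < ((p : ℝˣ) : ℝ))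
    (hmul : ∀ p ∈ P, ∀ a ∈ A, ((p : ℝˣ) : ℝ) * a ∈ A)
    (hs : ∃ p ∈ P, ∃ s : ℚ, s ≠ 1 ∧ ((p : ℝˣ) : ℝ) = s) (I : Set ℝ) (hI : IsInterval A I) :
    Det (kvQ S n) (BieriStrebel A P I) := by
  obtain ⟨p, hp, s, hs1, hps⟩ := hs
  have h1 : Pool.Agent.H417.PL.BSData A P := ⟨hpos, hmul⟩
  have h2 : Nontrivial A := (AddSubgroup.nontrivial_iff_ne_bot A).mpr hA
  exact Pool.Agent.H417.PL.det_BS A P (hasPT_kv S n)
    (Pool.Agent.H417.PL.det_free (E := kvQ S n) P) hp hps hs1 hI

end Pool.Agent.Results.MP_63c928_gt.PiecewiseLinearGroups
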